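import Mathlib

/-!
# The equation `x x^{-a} x^{a^2} = c` over the Frobenius group of order 42

The equation has a solution in a solvable group: the group of invertible upper triangular
`4 × 4` matrices over the field with seven elements.
-/

set_option autoImplicit false

namespace Pool.Agent.Results.MP_a21721_al.SolvableSolution

/-- The cyclic group of order 7, written multiplicatively. -/
abbrev C7 := Multiplicative (ZMod 7)

/-- The cyclic group of order 6, written multiplicatively. -/
abbrev C6 := Multiplicative (ZMod 6)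

/-- The action of the cyclic group of order 6 on the cyclic group of order 7 in which the
generator acts by `n ↦ n ^ 3`, so that its inverse acts by `n ↦ n ^ 5`. -/
def act : C6 →* MulAut C7 where
  toFun k :=
    { toFun := fun n => n ^ (3 ^ (Multiplicative.toAdd k).val)
      invFun := fun n => n ^ (5 ^ (Multiplicative.toAdd k).val)
      left_inv := by revert k; decide +kernel
      right_inv := by revert k; decide +kernel
      map_mul' := fun x y => mul_pow x y _ }
  map_one' := by
    apply MulEquiv.ext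
    decide +kernel
  map_mul' := by
    intro k l
    apply MulEquiv.ext
    revert k l; decide +kernel

/-- The Frobenius group of order 42, `⟨c⟩_7 ⋊ ⟨a⟩_6`. -/
abbrev G := C7 ⋊[act] C6

/-- The generator `a` of order 6. -/
def a : G := SemidirectProduct.inr (Multiplicative.ofAdd 1)

/-- The generator `c` of order 7. -/
def c : G := SemidirectProduct.inl (Multiplicative.ofAdd 1)

abbrev M4 := Matrix (Fin 4) (Fin 4) (ZMod 7)

/-- upper triangular -/
def Up (M : M4) : Prop := ∀ i j : Fin 4, j < i → M i j = 0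

theorem Up.one : Up 1 := by
  intro i j h
  exact Matrix.one_apply_ne (ne_of_gt h)

theorem Up.mul {M N : M4} (hM : Up M) (hN : Up N) : Up (M * N) := by
  intro i j h
  rw [Matrix.mul_apply]
  apply Finset.sum_eq_zero
  intro k _
  by_cases h1 : k < i
  · rw [hM i k h1, zero_mul]
  · rw [hN k j (lt_of_lt_of_le h (not_lt.1 h1)), mul_zero]

theorem Up.mul_diag {M N : M4} (hM : Up M) (hN : Up N) (i : Fin 4) :
    (M * N) i i = M i i * N i i := by
  rw [Matrix.mul_apply, Finset.sum_eq_single i]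
  · intro k _ hk
    rcases lt_or_gt_of_ne hk with h | h
    · rw [hM i k h, zero_mul]
    · rw [hN k i h, mul_zero]
  · intro h; exact absurd (Finset.mem_univ _) h

/-- The group of invertible upper triangular matrices. -/
def T : Subgroup M4ˣ where
  carrier := {M | Up (M : M4) ∧ Up ((M⁻¹ : M4ˣ) : M4)}
  one_mem' := ⟨Up.one, by rw [inv_one]; exact Up.one⟩
  mul_mem' := by
    rintro M N ⟨h1, h2⟩ ⟨h3, h4⟩
    refine ⟨h1.mul h3, ?_⟩
    rw [mul_inv_rev]; exact h4.mul h2
  inv_mem' := by
    rintro M ⟨h1, h2⟩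
    exact ⟨h2, by rw [inv_inv]; exact h1⟩

/-- the diagonal -/
def diagHom : T →* (Fin 4 → ZMod 7)ˣ := MonoidHom.toHomUnits
  { toFun := fun M i => ((M : M4ˣ) : M4) i i
    map_one' := by funext i; simp
    map_mul' := by
      intro M N
      funext i
      exact M.2.1.mul_diag N.2.1 i }

theorem mem_ker1 {M : T} (h : M ∈ diagHom.ker) (i : Fin 4) : ((M : M4ˣ) : M4) i i = 1 := by
  have h1 : diagHom M = 1 := h
  exact congrFun (congrArg Units.val h1) i

/-- the first superdiagonal of a unitriangular matrix -/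
def superHom : diagHom.ker →* Multiplicative (ZMod 7 × ZMod 7 × ZMod 7) where
  toFun M := Multiplicative.ofAdd
    ((((M : T) : M4ˣ) : M4) 0 1, (((M : T) : M4ˣ) : M4) 1 2, (((M : T) : M4ˣ) : M4) 2 3)
  map_one' := by
    simp
  map_mul' := by
    intro M N
    rw [← ofAdd_add]
    congr 1
    have u1 := (M : T).2.1
    have u2 := (N : T).2.1
    have d1 := mem_ker1 M.2
    have d2 := mem_ker1 N.2
    have e : ((((M * N : diagHom.ker) : T) : M4ˣ) : M4) = (((M : T) : M4ˣ) : M4) * (((N : T) : M4ˣ) : M4) := rfl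
    rw [e]
    set X := (((M : T) : M4ˣ) : M4)
    set Y := (((N : T) : M4ˣ) : M4)
    have x10 := u1 1 0 (by decide)
    have x20 := u1 2 0 (by decide)
    have x21 := u1 2 1 (by decide)
    have y21 := u2 2 1 (by decide)
    have y31 := u2 3 1 (by decide)
    have y32 := u2 3 2 (by decide)
    simp only [Matrix.mul_apply, Fin.sum_univ_four, Prod.mk_add_mk, Prod.mk.injEq, x10, x20, x21, y21,
      y31, y32, d1, d2]
    refine ⟨by ring, by ring, by ring⟩

theorem ker2_comm (M N : superHom.ker) : M * N = N * M := by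
  apply Subtype.ext
  apply Subtype.ext
  apply Subtype.ext
  apply Units.ext
  have u1 := ((M : diagHom.ker) : T).2.1
  have u2 := ((N : diagHom.ker) : T).2.1
  have d1 := mem_ker1 (M : diagHom.ker).2
  have d2 := mem_ker1 (N : diagHom.ker).2
  have s1 : superHom M = 1 := M.2
  have s2 : superHom N = 1 := N.2
  have s1' := congrArg Multiplicative.toAdd s1
  have s2' := congrArg Multiplicative.toAdd s2
  show ((((M : diagHom.ker) : T) : M4ˣ) : M4) * ((((N : diagHom.ker) : T) : M4ˣ) : M4)
    = ((((N : diagHom.ker) : T) : M4ˣ) : M4) * ((((M : diagHom.ker) : T) : M4ˣ) : M4)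
  simp only [superHom, MonoidHom.coe_mk, OneHom.coe_mk, toAdd_ofAdd, toAdd_one, Prod.mk_eq_zero] at s1' s2'
  obtain ⟨a1, a2, a3⟩ := s1'
  obtain ⟨b1, b2, b3⟩ := s2'
  set X := ((((M : diagHom.ker) : T) : M4ˣ) : M4)
  set Y := ((((N : diagHom.ker) : T) : M4ˣ) : M4)
  have x10 := u1 1 0 (by decide)
  have x20 := u1 2 0 (by decide)
  have x21 := u1 2 1 (by decide)
  have x30 := u1 3 0 (by decide)
  have x31 := u1 3 1 (by decide)
  have x32 := u1 3 2 (by decide)
  have y10 := u2 1 0 (by decide)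
  have y20 := u2 2 0 (by decide)
  have y21 := u2 2 1 (by decide)
  have y30 := u2 3 0 (by decide)
  have y31 := u2 3 1 (by decide)
  have y32 := u2 3 2 (by decide)
  ext i j
  simp only [Matrix.mul_apply, Fin.sum_univ_four]
  fin_cases i <;> fin_cases j <;>
    simp only [Fin.zero_eta, Fin.mk_one, Fin.reduceFinMk, x10, x20, x21, x30, x31, x32, y10, y20, y21,
      y30, y31, y32, d1, d2, a1, a2, a3, b1, b2, b3] <;> ring

theorem T_solvable : Group.IsSolvable T := by
  have h1 : Group.IsSolvable superHom.ker := Group.isSolvable_of_comm ker2_comm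
  have h2 : Group.IsSolvable diagHom.ker :=
    Group.isSolvable_of_ker_le_range superHom.ker.subtype superHom (by rw [Subgroup.range_subtype])
  exact Group.isSolvable_of_ker_le_range diagHom.ker.subtype diagHom (by rw [Subgroup.range_subtype])

/-! ### the explicit matrices -/

def mA : M4 := !![3,0,0,0; 0,2,0,0; 0,0,3,0; 0,0,0,1]
def mA' : M4 := !![5,0,0,0; 0,4,0,0; 0,0,5,0; 0,0,0,1]
def mC : M4 := !![1,0,0,5; 0,1,0,0; 0,0,1,0; 0,0,0,1]
def mC' : M4 := !![1,0,0,2; 0,1,0,0; 0,0,1,0; 0,0,0,1]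
def mX : M4 := !![1,3,4,4; 0,1,4,5; 0,0,1,6; 0,0,0,1]
def mX' : M4 := !![1,4,1,5; 0,1,3,5; 0,0,1,1; 0,0,0,1]

theorem up_of {M : M4} (h : M 1 0 = 0 ∧ M 2 0 = 0 ∧ M 2 1 = 0 ∧ M 3 0 = 0 ∧ M 3 1 = 0 ∧ M 3 2 = 0) :
    Up M := by
  obtain ⟨h1, h2, h3, h4, h5, h6⟩ := h
  intro i j hij
  fin_cases i <;> fin_cases j <;> first | exact absurd hij (by decide) | assumption

def tA : T := ⟨⟨mA, mA', by decide, by decide⟩,
  up_of (M := mA) (by decide), up_of (M := mA') (by decide)⟩
def tC : T := ⟨⟨mC, mC', by decide, by decide⟩,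
  up_of (M := mC) (by decide), up_of (M := mC') (by decide)⟩
def tX : T := ⟨⟨mX, mX', by decide, by decide⟩,
  up_of (M := mX) (by decide), up_of (M := mX') (by decide)⟩

theorem T_ext {x y : T} (h : ((x : M4ˣ) : M4) = ((y : M4ˣ) : M4)) : x = y :=
  Subtype.ext (Units.ext h)

theorem tA_pow : tA ^ 6 = 1 := T_ext (by
  show mA ^ 6 = 1
  decide +kernel)
theorem tC_pow : tC ^ 7 = 1 := T_ext (by
  show mC ^ 7 = 1
  decide +kernel)
theorem tA_conj : tA * tC * tA⁻¹ = tC ^ 3 := T_ext (by
  show mA * mC * mA' = mC ^ 3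
  decide +kernel)

def f1 : C7 →* T := MonoidHom.mk' (fun n => tC ^ (Multiplicative.toAdd n).val) (by
  intro x y
  rw [toAdd_mul, ZMod.val_add, ← pow_add, ← pow_eq_pow_mod _ tC_pow])

def f2 : C6 →* T := MonoidHom.mk' (fun n => tA ^ (Multiplicative.toAdd n).val) (by
  intro x y
  rw [toAdd_mul, ZMod.val_add, ← pow_add, ← pow_eq_pow_mod _ tA_pow])

theorem tA_conj_pow (k : ℕ) : tA ^ k * tC * (tA ^ k)⁻¹ = tC ^ (3 ^ k) := by
  induction k with
  | zero => simp
  | succ k ih =>
    rw [pow_succ' tA, mul_inv_rev]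
    have : tA * tA ^ k * tC * ((tA ^ k)⁻¹ * tA⁻¹) = tA * (tA ^ k * tC * (tA ^ k)⁻¹) * tA⁻¹ := by
      group
    rw [this, ih, ← conj_pow, tA_conj, ← pow_mul, pow_succ, mul_comm]

def iota : G →* T := SemidirectProduct.lift f1 f2 (by
  intro k
  apply MonoidHom.ext
  intro n
  show f1 (n ^ (3 ^ (Multiplicative.toAdd k).val)) = f2 k * f1 n * (f2 k)⁻¹
  rw [map_pow]
  show (tC ^ (Multiplicative.toAdd n).val) ^ _ = tA ^ _ * tC ^ (Multiplicative.toAdd n).val * (tA ^ _)⁻¹
  rw [← conj_pow, tA_conj_pow, ← pow_mul, ← pow_mul, mul_comm])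

theorem dec : ∀ (n : ZMod 7) (k : ZMod 6), mC ^ n.val * mA ^ k.val = 1 → n = 0 ∧ k = 0 := by
  decide +kernel

theorem iota_inj : Function.Injective iota := by
  rw [injective_iff_map_eq_one]
  intro g hg
  have h1 : iota g = f1 g.left * f2 g.right := rfl
  rw [h1] at hg
  have h2 : mC ^ (Multiplicative.toAdd g.left).val * mA ^ (Multiplicative.toAdd g.right).val = 1 :=
    congrArg (fun x : T => ((x : M4ˣ) : M4)) hg
  obtain ⟨h3, h4⟩ := dec _ _ h2
  apply SemidirectProduct.ext
  · exact h3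
  · exact h4

theorem iota_a : iota a = tA := by
  show f1 (1 : C7) * f2 (Multiplicative.ofAdd 1) = tA
  rw [map_one f1, one_mul]
  exact pow_one tA

theorem iota_c : iota c = tC := by
  show f1 (Multiplicative.ofAdd 1) * f2 (1 : C6) = tC
  rw [map_one f2, mul_one]
  exact pow_one tC

/-- **The equation `x x^{-a} x^{a^2} = c` over the Frobenius group `G` of order 42 has a solution
in a solvable group.**  `G = ⟨c⟩_7 ⋊ ⟨a⟩_6` with `c^a = a⁻¹ c a = c^5`, where `a` has order 6 and
`c` has order 7; there are a finite solvable group `H` (which may be taken to be a group of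
upper triangular `4 × 4` matrices over the field with 7 elements), an injective homomorphism
`ι : G → H` and `h ∈ H` with `h · a⁻¹h⁻¹a · a⁻²ha² = c`. -/
theorem result :
    (orderOf a = 6 ∧ orderOf c = 7 ∧ a⁻¹ * c * a = c ^ 5 ∧ Subgroup.closure {a, c} = ⊤) ∧
    ∃ (H : Subgroup (Matrix (Fin 4) (Fin 4) (ZMod 7))ˣ),
      (∀ M ∈ H, ∀ i j : Fin 4, j < i → (M : Matrix (Fin 4) (Fin 4) (ZMod 7)) i j = 0) ∧
      Group.IsSolvable H ∧
      ∃ ι : G →* H, Function.Injective ι ∧
        ∃ h : H, h * ((ι a)⁻¹ * h⁻¹ * ι a) * ((ι a ^ 2)⁻¹ * h * ι a ^ 2) = ι c := by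
  refine ⟨⟨?_, ?_, ?_, ?_⟩, T, fun M hM => hM.1, T_solvable, iota, iota_inj, tX, ?_⟩
  · rw [orderOf_eq_iff (by norm_num)]
    constructor
    · decide +kernel
    · decide +kernel
  · rw [orderOf_eq_iff (by norm_num)]
    constructor
    · decide +kernel
    · decide +kernel
  · decide +kernel
  · rw [eq_top_iff]
    rintro ⟨n, k⟩ _
    have h1 : (⟨n, k⟩ : G) = c ^ (Multiplicative.toAdd n).val * a ^ (Multiplicative.toAdd k).val := by
      clear * -
      revert n k
      decide +kernel
    rw [h1]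
    exact mul_mem (pow_mem (Subgroup.subset_closure (by simp)) _)
      (pow_mem (Subgroup.subset_closure (by simp)) _)
  · rw [iota_a, iota_c]
    apply T_ext
    show mX * (mA' * mX' * mA) * ((mA' ^ 2) * mX * mA ^ 2) = mC
    decide +kernel

end Pool.Agent.Results.MP_a21721_al.SolvableSolution
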